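import Mathlib
import Pool.Agent.R29.MixB

/-!
# The complete graph maximises the trace of the average mixing matrix (MP_582e4a_co, Q1)
-/

set_option autoImplicit false
set_option linter.unusedSectionVars false

open Finset Matrix

namespace Pool.Agent.Results.MP_582e4a_co.TraceMaximum

/-- `A = ∑ θ r E r` is the spectral decomposition of the real symmetric matrix `A` (with numbers
`θ 0, ..., θ (k-1)` which are distinct and orthogonal projections `E 0, ..., E (k-1)`, symmetric
idempotents which are mutually orthogonal and sum to the identity). -/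
structure IsSpectralDecomposition {V : Type} [Fintype V] [DecidableEq V] (A : Matrix V V ℝ) {k : ℕ}
    (θ : Fin k → ℝ) (E : Fin k → Matrix V V ℝ) : Prop where
  distinct : Function.Injective θ
  symm : ∀ r, (E r)ᵀ = E r
  idem : ∀ r, E r * E r = E r
  orth : ∀ r s, r ≠ s → E r * E s = 0
  sum_one : ∑ r, E r = 1
  sum_eq : ∑ r, θ r • E r = A

/-- The average mixing matrix `∑ E r ∘ E r` (entrywise products). -/
def avgMixing {V : Type} {k : ℕ} (E : Fin k → Matrix V V ℝ) : Matrix V V ℝ := ∑ r, E r ⊙ E r

open Pool.Agent.R29 Pool.Agent.R29.Mix Pool.Agent.R29.MixB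

variable {V : Type} [Fintype V] [DecidableEq V]

theorem toSpec {A : Matrix V V ℝ} {k : ℕ} {θ : Fin k → ℝ} {E : Fin k → Matrix V V ℝ}
    (S : IsSpectralDecomposition A θ E) : Spec A θ E :=
  ⟨S.distinct, S.symm, S.idem, S.orth, S.sum_one, S.sum_eq⟩

theorem trace_eq {k : ℕ} (E : Fin k → Matrix V V ℝ) :
    (avgMixing E).trace = ∑ v, ∑ r, E r v v ^ 2 := by
  unfold avgMixing Matrix.trace
  refine Finset.sum_congr rfl fun v _ => ?_
  rw [Matrix.diag_apply, Matrix.sum_apply]
  refine Finset.sum_congr rfl fun r _ => ?_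
  rw [Matrix.hadamard_apply, sq]

theorem exists_deg_two (G : SimpleGraph V) [DecidableRel G.Adj] (hG : G.Connected)
    (hn : 3 ≤ Fintype.card V) : ∃ v, 2 ≤ G.degree v := by
  by_contra hc
  push Not at hc
  have h1 := hG.card_vert_le_card_edgeSet_add_one
  have h2 := G.sum_degrees_eq_twice_card_edges
  have h3 : ∑ v, G.degree v ≤ ∑ _v : V, 1 := Finset.sum_le_sum fun v _ => by
    have := hc v; omega
  rw [Finset.sum_const, smul_eq_mul, mul_one, Finset.card_univ] at h3
  rw [Nat.card_eq_fintype_card, Nat.card_eq_fintype_card, ← SimpleGraph.edgeFinset_card] at h1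
  omega

theorem trace_le (G : SimpleGraph V) [DecidableRel G.Adj] (hG : G.Connected) {k : ℕ}
    {θ : Fin k → ℝ} {E : Fin k → Matrix V V ℝ} (S : Spec (G.adjMatrix ℝ) θ E) :
    ∑ v, ∑ r, E r v v ^ 2 ≤
      ((Fintype.card V : ℝ) ^ 2 - 2 * Fintype.card V + 2) / Fintype.card V := by
  obtain ⟨v1⟩ := hG.nonempty
  have hcard : 1 ≤ Fintype.card V := Fintype.card_pos_iff.mpr ⟨v1⟩
  rcases Nat.lt_or_ge (Fintype.card V) 2 with hn1 | hn2
  · -- one vertex
    have hc1 : Fintype.card V = 1 := by omega
    have h1 : ∀ v, ∑ r, E r v v ^ 2 ≤ 1 := by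
      intro v
      rw [← S.diag_sum v]
      refine Finset.sum_le_sum fun r _ => ?_
      have h2 := S.diag_nonneg r v
      have h3 := S.diag_le r v
      nlinarith
    have h2 : ∑ v, ∑ r, E r v v ^ 2 ≤ ∑ _v : V, (1 : ℝ) := Finset.sum_le_sum fun v _ => h1 v
    rw [Finset.sum_const, Finset.card_univ, hc1] at h2
    rw [hc1]
    norm_num at h2 ⊢
    exact h2
  · have : Nontrivial V := Fintype.one_lt_card_iff_nontrivial.mp (by omega)
    obtain ⟨lam, q, hq, hAq, -⟩ := Pool.Agent.R2.Perron.exists_perron G hG
    set c := ∑ v, q v ^ 2 with hc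
    have hc0 : 0 < c := Finset.sum_pos (fun v _ => pow_pos (hq v) 2) ⟨v1, Finset.mem_univ v1⟩
    set x : V → ℝ := fun v => q v / Real.sqrt c with hx
    have hsc : 0 < Real.sqrt c := Real.sqrt_pos.mpr hc0
    have hxp : ∀ v, 0 < x v := fun v => div_pos (hq v) hsc
    have hnrm : ∑ v, x v ^ 2 = 1 := by
      have : ∀ v, x v ^ 2 = q v ^ 2 / c := by
        intro v; rw [hx]; simp only; rw [div_pow, Real.sq_sqrt hc0.le]
      rw [Finset.sum_congr rfl fun v _ => this v, ← Finset.sum_div, ← hc, div_self hc0.ne']
    have hAx : (G.adjMatrix ℝ) *ᵥ x = lam • x := by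
      have : x = (Real.sqrt c)⁻¹ • q := by
        ext v; rw [hx, Pi.smul_apply, smul_eq_mul]; field_simp
      rw [this, Matrix.mulVec_smul, hAq, smul_comm]
    set g : V → V → ℝ := fun u v => (G.adjMatrix ℝ) u v with hg
    have hdeg : ∀ v, ∑ u, g v u = (G.degree v : ℝ) := by
      intro v
      rw [hg]
      simp only [SimpleGraph.adjMatrix_apply]
      rw [← Finset.sum_filter, Finset.sum_const, nsmul_eq_mul, mul_one,
        ← SimpleGraph.neighborFinset_eq_filter, SimpleGraph.card_neighborFinset_eq_degree]
    have hd1 : ∀ v, 1 ≤ ∑ u, g v u := by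
      intro v
      rw [hdeg v]
      have := hG.preconnected.degree_pos_of_nontrivial v
      exact_mod_cast this
    have heig : ∀ v, ∑ u, g v u * x u = lam * x v := by
      intro v
      have := congrFun hAx v
      rw [Pi.smul_apply, smul_eq_mul] at this
      rw [← this]
      rfl
    have hlam : 0 < lam := by
      have h1 := heig v1
      have h2 : 0 < ∑ u, g v1 u * x u := by
        have h3 : ∃ u, g v1 u ≠ 0 := by
          by_contra hcon
          push Not at hcon
          have h4 := hd1 v1
          rw [Finset.sum_eq_zero fun u _ => hcon u] at h4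
          linarith
        obtain ⟨u, hu⟩ := h3
        have hg0 : ∀ a b, 0 ≤ g a b := by
          intro a b; rw [hg]; simp only [SimpleGraph.adjMatrix_apply]; split_ifs <;> norm_num
        exact Finset.sum_pos' (fun w _ => mul_nonneg (hg0 _ _) (hxp w).le)
          ⟨u, Finset.mem_univ u, mul_pos (lt_of_le_of_ne (hg0 _ _) hu.symm) (hxp u)⟩
      rw [h1] at h2
      exact (pos_iff_pos_of_mul_pos h2).mpr (hxp v1)
    have D : Data g x lam :=
      { g01 := fun u v => by
          rw [hg]; simp only [SimpleGraph.adjMatrix_apply]; split_ifs <;> simp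
        gs := fun u v => by
          rw [hg]; simp only [SimpleGraph.adjMatrix_apply, SimpleGraph.adj_comm]
        g0 := fun v => by rw [hg]; simp
        xp := hxp
        nrm := hnrm
        eig := heig
        tp := hlam }
    obtain ⟨r0, hr0, hy0⟩ := exists_top G hG S lam x hxp hnrm hAx
    -- the main inequality
    set q2 := ∑ v, (x v ^ 2) ^ 2 with hq2
    set n : ℝ := (Fintype.card V : ℝ) with hn
    have hn2' : (2 : ℝ) ≤ n := by rw [hn]; exact_mod_cast hn2
    have hLeq : ∑ u, ∑ v, (x u ^ 2 - x v ^ 2) ^ 2 = 2 * n * q2 - 2 := by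
      have : ∀ u, ∑ v, (x u ^ 2 - x v ^ 2) ^ 2 = n * (x u ^ 2) ^ 2 - 2 * x u ^ 2 + q2 := by
        intro u
        have h1 : ∀ v, (x u ^ 2 - x v ^ 2) ^ 2 =
            (x u ^ 2) ^ 2 - 2 * x u ^ 2 * x v ^ 2 + (x v ^ 2) ^ 2 := fun v => by ring
        rw [Finset.sum_congr rfl fun v _ => h1 v, Finset.sum_add_distrib, Finset.sum_sub_distrib,
          ← Finset.mul_sum, hnrm, Finset.sum_const, Finset.card_univ, nsmul_eq_mul, mul_one]
      rw [Finset.sum_congr rfl fun u _ => this u, Finset.sum_add_distrib, Finset.sum_sub_distrib,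
        ← Finset.mul_sum, ← Finset.mul_sum, hnrm, Finset.sum_const, Finset.card_univ, nsmul_eq_mul]
      ring
    have hL0 : 0 ≤ ∑ u, ∑ v, (x u ^ 2 - x v ^ 2) ^ 2 :=
      Finset.sum_nonneg fun u _ => Finset.sum_nonneg fun v _ => sq_nonneg _
    have hB0 : 0 ≤ ∑ v, nu g x v := Finset.sum_nonneg fun v _ => nu_nonneg D v
    have hL : ∑ u, ∑ v, (x u ^ 2 - x v ^ 2) ^ 2 ≤ ∑ v, nu g x v := by
      rcases Nat.lt_or_ge (Fintype.card V) 3 with hn3 | hn3
      · -- two vertices
        have hc2 : Fintype.card V = 2 := by omega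
        have hhalf : ∀ v, x v ^ 2 = 1 / 2 := by
          intro v
          have h1 := le_half D v
          have h2 : ∑ w, (1 / 2 - x w ^ 2) = 0 := by
            rw [Finset.sum_sub_distrib, hnrm, Finset.sum_const, Finset.card_univ, hc2]
            norm_num
          have h3 := (Finset.sum_eq_zero_iff_of_nonneg (fun w _ => by
            have := le_half D w; linarith)).mp h2 v (Finset.mem_univ v)
          linarith
        have : ∑ u, ∑ v, (x u ^ 2 - x v ^ 2) ^ 2 = 0 :=
          Finset.sum_eq_zero fun u _ => Finset.sum_eq_zero fun v _ => by rw [hhalf u, hhalf v]; ring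
        rw [this]
        exact hB0
      · obtain ⟨v, hv⟩ := exists_deg_two G hG hn3
        have h1 := deg_le D v
        rw [hdeg v] at h1
        have h2 : (2 : ℝ) ≤ G.degree v := by exact_mod_cast hv
        have h3 : 7 / 5 ≤ lam := by nlinarith
        exact main D h3
    have hH := hong D hd1
    set W := ∑ v, (∑ u, g v u) * x v ^ 2 with hW
    set M := ∑ v, ∑ u, g v u with hM
    set Dd := M - lam ^ 2 with hDd
    have hR : ∑ v, ((∑ u, g v u) * (1 - x v ^ 2) - lam ^ 2 * x v ^ 2) = Dd - W := by
      have : ∀ v, (∑ u, g v u) * (1 - x v ^ 2) - lam ^ 2 * x v ^ 2 =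
          (∑ u, g v u) - (∑ u, g v u) * x v ^ 2 - lam ^ 2 * x v ^ 2 := fun v => by ring
      rw [Finset.sum_congr rfl fun v _ => this v, Finset.sum_sub_distrib, Finset.sum_sub_distrib,
        ← Finset.mul_sum, hnrm, ← hM, ← hW, hDd]
      ring
    have hB : ∑ v, nu g x v = (n - 1) - W := by
      unfold nu nb
      rw [Finset.sum_comm]
      have : ∀ w, ∑ v, (1 - g v w - if v = w then 1 else 0) * x w ^ 2 =
          (n - 1) * x w ^ 2 - (∑ u, g w u) * x w ^ 2 := by
        intro w
        rw [← Finset.sum_mul, Finset.sum_sub_distrib, Finset.sum_sub_distrib, Finset.sum_const,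
          Finset.card_univ, nsmul_eq_mul, mul_one]
        simp only [Finset.sum_ite_eq', Finset.mem_univ, if_true]
        have : ∑ v, g v w = ∑ u, g w u := Finset.sum_congr rfl fun u _ => D.gs u w
        rw [this]
        ring
      rw [Finset.sum_congr rfl fun w _ => this w, Finset.sum_sub_distrib, ← Finset.mul_sum, hnrm,
        ← hW]
      ring
    rw [hR, hB] at hH
    rw [hLeq, hB] at hL
    rw [hLeq] at hL0
    have hDn : n - 1 ≤ Dd := by linarith
    have hDpos : 0 < Dd := by linarith
    -- the traces
    have hEsq : ∀ v, ∑ r, θ r ^ 2 * E r v v = ∑ u, g v u := by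
      intro v
      have h1 := congrFun (congrFun S.sq v) v
      rw [Matrix.sum_apply, Matrix.mul_apply] at h1
      simp only [Matrix.smul_apply, smul_eq_mul] at h1
      rw [h1]
      refine Finset.sum_congr rfl fun u _ => ?_
      have h2 := D.gs v u
      have h3 := D.g01 v u
      change g v u * g u v = g v u
      rw [← h2]
      rcases h3 with h3 | h3 <;> rw [h3] <;> ring
    have hEone : ∀ v, ∑ r, θ r * E r v v = 0 := by
      intro v
      have h1 := congrFun (congrFun S.sum_eq v) v
      rw [Matrix.sum_apply] at h1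
      simp only [Matrix.smul_apply, smul_eq_mul] at h1
      rw [h1]
      simp
    have hDtr : Dd = ∑ r ∈ univ.erase r0, θ r ^ 2 * ∑ u, E r u u := by
      have h1 : M = ∑ r, θ r ^ 2 * ∑ u, E r u u := by
        have h3 : ∑ r, θ r ^ 2 * ∑ u, E r u u = ∑ u, ∑ r, θ r ^ 2 * E r u u := by
          simp_rw [Finset.mul_sum]
          exact Finset.sum_comm
        rw [hM, h3]
        exact Finset.sum_congr rfl fun v _ => (hEsq v).symm
      have h2 := Finset.add_sum_erase univ (fun r => θ r ^ 2 * ∑ u, E r u u) (Finset.mem_univ r0)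
      beta_reduce at h2
      rw [← h1, hr0, Finset.sum_congr rfl fun u _ => hy0 u, hnrm] at h2
      rw [hDd]
      linarith
    have hvb : ∀ v, ∑ r, E r v v ^ 2 ≤ 1 - 2 * x v ^ 2 + 2 * (x v ^ 2) ^ 2 -
        ((∑ u, g v u) * (1 - x v ^ 2) - lam ^ 2 * x v ^ 2) / Dd := by
      intro v
      refine vertex_bound (fun r => E r v v) θ r0 (∑ u, g v u) (x v ^ 2) lam Dd hDpos
        (fun r => S.diag_nonneg r v) (S.diag_sum v) (hEone v) (hEsq v) (hy0 v) hr0 ?_
      intro r s hrs hr hs hyr hys
      rw [hDtr]
      have h1 := S.trace_ge r v hyr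
      have h2 := S.trace_ge s v hys
      have h3 : θ r ^ 2 * 1 + θ s ^ 2 * 1 ≤ θ r ^ 2 * ∑ u, E r u u + θ s ^ 2 * ∑ u, E s u u :=
        add_le_add (mul_le_mul_of_nonneg_left h1 (sq_nonneg _))
          (mul_le_mul_of_nonneg_left h2 (sq_nonneg _))
      have h4 : θ r ^ 2 * ∑ u, E r u u + θ s ^ 2 * ∑ u, E s u u ≤
          ∑ r ∈ univ.erase r0, θ r ^ 2 * ∑ u, E r u u := by
        have h5 : ({r, s} : Finset (Fin k)) ⊆ univ.erase r0 := by
          intro a ha
          rw [Finset.mem_insert, Finset.mem_singleton] at ha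
          rw [Finset.mem_erase]
          rcases ha with rfl | rfl
          · exact ⟨hr, Finset.mem_univ _⟩
          · exact ⟨hs, Finset.mem_univ _⟩
        have h6 := Finset.sum_le_sum_of_subset_of_nonneg h5
          (f := fun r => θ r ^ 2 * ∑ u, E r u u)
          (fun a _ _ => mul_nonneg (sq_nonneg _) (Finset.sum_nonneg fun u _ => S.diag_nonneg a u))
        rw [Finset.sum_pair hrs] at h6
        exact h6
      linarith
    have hsum := Finset.sum_le_sum fun v (_ : v ∈ (univ : Finset V)) => hvb v
    have hval : ∑ v, (1 - 2 * x v ^ 2 + 2 * (x v ^ 2) ^ 2 -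
        ((∑ u, g v u) * (1 - x v ^ 2) - lam ^ 2 * x v ^ 2) / Dd) =
        n - 2 + 2 * q2 - (Dd - W) / Dd := by
      rw [Finset.sum_sub_distrib, ← Finset.sum_div, hR, Finset.sum_add_distrib,
        Finset.sum_sub_distrib, Finset.sum_const, Finset.card_univ, nsmul_eq_mul, mul_one,
        ← Finset.mul_sum, ← Finset.mul_sum, hnrm, ← hq2, ← hn]
      ring
    rw [hval] at hsum
    refine hsum.trans ?_
    have hq2half : q2 ≤ 1 / 2 := by
      have h1 : q2 ≤ ∑ v, 1 / 2 * x v ^ 2 := Finset.sum_le_sum fun v _ => by
        have := le_half D v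
        have := sq_nonneg (x v)
        nlinarith
      rw [← Finset.mul_sum, hnrm] at h1
      linarith
    have hnpos : 0 < n := by linarith
    have hkey : 2 * q2 - 2 / n ≤ (Dd - W) / Dd := by
      rw [le_div_iff₀ hDpos]
      have h1 : (2 * q2 - 2 / n) * n = 2 * n * q2 - 2 := by field_simp
      set cc := 2 * q2 - 2 / n with hcc
      have hcc1 : cc ≤ 1 := by
        have : 0 < 2 / n := by positivity
        linarith
      have hcc0 : 0 ≤ cc := by
        by_contra hcon
        push Not at hcon
        nlinarith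
      have h2 : cc * n ≤ (n - 1) - W := by rw [h1]; linarith
      nlinarith
    have hfin : (n ^ 2 - 2 * n + 2) / n = n - 2 + 2 / n := by field_simp
    rw [hfin]
    linarith


/-- Every real symmetric matrix has a spectral decomposition. -/
theorem exists_decomposition (A : Matrix V V ℝ) (hA : A.IsHermitian) :
    ∃ (k : ℕ) (θ : Fin k → ℝ) (E : Fin k → Matrix V V ℝ), IsSpectralDecomposition A θ E := by
  classical
  set S : Finset ℝ := Finset.univ.image hA.eigenvalues with hS
  set U : Matrix V V ℝ := (hA.eigenvectorUnitary : Matrix V V ℝ) with hU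
  have hUU : U * star U = 1 := Unitary.mul_star_self_of_mem hA.eigenvectorUnitary.2
  have hUU' : star U * U = 1 := Unitary.star_mul_self_of_mem hA.eigenvectorUnitary.2
  have hst : star U = Uᵀ := by
    rw [Matrix.star_eq_conjTranspose, Matrix.conjTranspose_eq_transpose_of_trivial]
  have hspec : A = U * Matrix.diagonal hA.eigenvalues * star U := by
    have := hA.spectral_theorem
    conv_lhs => rw [this]
    rfl
  refine ⟨S.card, fun r => (S.equivFin.symm r : ℝ), fun r => U * Matrix.diagonal
    (fun i => if hA.eigenvalues i = (S.equivFin.symm r : ℝ) then 1 else 0) * star U, ?_⟩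
  have hmul : ∀ f h : V → ℝ, (U * Matrix.diagonal f * star U) * (U * Matrix.diagonal h * star U) =
      U * Matrix.diagonal (fun i => f i * h i) * star U := by
    intro f h
    calc (U * Matrix.diagonal f * star U) * (U * Matrix.diagonal h * star U)
        = U * Matrix.diagonal f * (star U * U) * Matrix.diagonal h * star U := by
          simp only [Matrix.mul_assoc]
      _ = _ := by rw [hUU', Matrix.mul_one, Matrix.mul_assoc U, Matrix.diagonal_mul_diagonal]
  have hsumf : ∀ (c : Fin S.card → ℝ), ∑ r, c r • (U * Matrix.diagonal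
      (fun i => if hA.eigenvalues i = (S.equivFin.symm r : ℝ) then (1 : ℝ) else 0) * star U) =
      U * Matrix.diagonal (fun i => c (S.equivFin ⟨hA.eigenvalues i,
        Finset.mem_image_of_mem _ (Finset.mem_univ i)⟩)) * star U := by
    intro c
    have h1 : ∀ r, c r • (U * Matrix.diagonal
      (fun i => if hA.eigenvalues i = (S.equivFin.symm r : ℝ) then (1 : ℝ) else 0) * star U) =
      U * Matrix.diagonal
      (fun i => if hA.eigenvalues i = (S.equivFin.symm r : ℝ) then c r else 0) * star U := by
      intro r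
      rw [← Matrix.smul_mul, ← Matrix.mul_smul, ← Matrix.diagonal_smul]
      congr 3
      ext i
      rw [Pi.smul_apply]
      split_ifs <;> simp
    rw [Finset.sum_congr rfl fun r _ => h1 r, ← Finset.sum_mul, ← Finset.mul_sum]
    congr 2
    ext i j
    rw [Matrix.sum_apply]
    by_cases hij : i = j
    · subst hij
      simp only [Matrix.diagonal_apply_eq]
      rw [Finset.sum_eq_single (S.equivFin ⟨hA.eigenvalues i,
        Finset.mem_image_of_mem _ (Finset.mem_univ i)⟩)]
      · simp
      · intro r _ hr
        rw [if_neg]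
        intro h
        apply hr
        rw [← Equiv.symm_apply_eq]
        exact Subtype.ext h.symm
      · intro h; exact absurd (Finset.mem_univ _) h
    · simp [Matrix.diagonal_apply_ne _ hij]
  constructor
  · intro r s h
    exact S.equivFin.symm.injective (Subtype.ext h)
  · intro r
    rw [hst, Matrix.transpose_mul, Matrix.transpose_mul, Matrix.transpose_transpose,
      Matrix.diagonal_transpose, Matrix.mul_assoc]
  · intro r
    rw [hmul]
    congr 3
    ext i
    split_ifs <;> simp
  · intro r s hrs
    rw [hmul]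
    have : (fun i => (if hA.eigenvalues i = (S.equivFin.symm r : ℝ) then (1 : ℝ) else 0) *
        (if hA.eigenvalues i = (S.equivFin.symm s : ℝ) then (1 : ℝ) else 0)) = fun _ => 0 := by
      ext i
      split_ifs with h1 h2
      · exfalso
        apply hrs
        apply S.equivFin.symm.injective
        apply Subtype.ext
        rw [← h1, ← h2]
      all_goals simp
    rw [this]
    simp
  · have := hsumf (fun _ => 1)
    simp only [one_smul] at this
    rw [this, Matrix.diagonal_one, Matrix.mul_one, hUU]
  · rw [hsumf (fun r => (S.equivFin.symm r : ℝ))]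
    simp only [Equiv.symm_apply_apply]
    exact hspec.symm


/-- the value for the complete graph -/
theorem trace_complete [Nonempty V] {k : ℕ} {θ : Fin k → ℝ} {E : Fin k → Matrix V V ℝ}
    (S : Spec ((⊤ : SimpleGraph V).adjMatrix ℝ) θ E) :
    ∑ v, ∑ r, E r v v ^ 2 =
      ((Fintype.card V : ℝ) ^ 2 - 2 * Fintype.card V + 2) / Fintype.card V := by
  have hcard : 1 ≤ Fintype.card V := Fintype.card_pos
  have hid : ∀ r a b, ∑ c, E r a c * E r c b = E r a b := by
    intro r a b
    have h := congrFun (congrFun (S.idem r) a) b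
    rw [Matrix.mul_apply] at h
    exact h
  rcases Nat.lt_or_ge (Fintype.card V) 2 with hn1 | hn2
  · have hc1 : Fintype.card V = 1 := by omega
    obtain ⟨a, ha⟩ := Fintype.card_eq_one_iff.mp hc1
    have hu : (univ : Finset V) = {a} := by
      ext b; simp [ha b]
    have h1 : ∀ r, E r a a ^ 2 = E r a a := by
      intro r
      have := hid r a a
      rw [hu, Finset.sum_singleton] at this
      rw [pow_two]; exact this
    rw [hu, Finset.sum_singleton, Finset.sum_congr rfl fun r _ => h1 r, S.diag_sum a, hc1]
    norm_num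
  · have : Nontrivial V := Fintype.one_lt_card_iff_nontrivial.mp (by omega)
    set n : ℝ := (Fintype.card V : ℝ) with hn
    have hnpos : (0 : ℝ) < n := by rw [hn]; exact_mod_cast hcard
    have hs : ∀ r a b, E r a b = E r b a := by
      intro r a b
      have h2 := congrFun (congrFun (S.symm r) b) a
      rw [Matrix.transpose_apply] at h2
      exact h2
    -- column sums
    have hcol : ∀ r u v, ∑ w, E r w v = (θ r + 1) * E r u v := by
      intro r u v
      have h := congrFun (congrFun (S.mul_E r) u) v
      rw [Matrix.mul_apply, Matrix.smul_apply, smul_eq_mul] at h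
      have h1 : ∑ w, (⊤ : SimpleGraph V).adjMatrix ℝ u w * E r w v = ∑ w, E r w v - E r u v := by
        have : ∀ w, (⊤ : SimpleGraph V).adjMatrix ℝ u w * E r w v =
            E r w v - (if u = w then E r w v else 0) := by
          intro w
          by_cases huw : u = w
          · subst huw; simp
          · simp [SimpleGraph.adjMatrix_apply, huw]
        rw [Finset.sum_congr rfl fun w _ => this w, Finset.sum_sub_distrib, Finset.sum_ite_eq]
        simp
      rw [h1] at h
      linarith
    -- constant matrices when θ r ≠ -1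
    have hconst : ∀ r, θ r ≠ -1 → ∀ a b c d, E r a b = E r c d := by
      intro r hr
      have h0 : θ r + 1 ≠ 0 := fun h => hr (by linarith)
      have h1 : ∀ u u' v, E r u v = E r u' v := by
        intro u u' v
        have h2 := hcol r u v
        rw [hcol r u' v] at h2
        exact (mul_left_cancel₀ h0 h2).symm
      intro a b c d
      rw [h1 a c b, hs r c b, h1 b d c, hs r d c]
    obtain ⟨a, b, hab⟩ := exists_pair_ne V
    have hsumab : ∑ r, E r a b = 0 := by
      have h := congrFun (congrFun S.sum_one a) b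
      rw [Matrix.sum_apply, Matrix.one_apply_ne hab] at h
      exact h
    obtain ⟨r1, hr1⟩ : ∃ r1, θ r1 = -1 := by
      by_contra hc
      push Not at hc
      have h1 : ∑ r, E r a a = ∑ r, E r a b :=
        Finset.sum_congr rfl fun r _ => hconst r (hc r) a a a b
      rw [S.diag_sum a, hsumab] at h1
      exact one_ne_zero h1
    have hne : ∀ r ∈ univ.erase r1, θ r ≠ -1 := by
      intro r hr h
      exact (Finset.ne_of_mem_erase hr) (S.distinct (h.trans hr1.symm))
    -- e = sum of the constants
    set e := ∑ r ∈ univ.erase r1, E r a a with he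
    have hdiag : ∀ v, E r1 v v = 1 - e := by
      intro v
      have h1 := Finset.add_sum_erase univ (fun r => E r v v) (Finset.mem_univ r1)
      beta_reduce at h1
      rw [S.diag_sum v, Finset.sum_congr rfl fun r hr => hconst r (hne r hr) v v a a, ← he] at h1
      linarith
    have hoff : ∀ u v, u ≠ v → E r1 u v = - e := by
      intro u v huv
      have h := congrFun (congrFun S.sum_one u) v
      rw [Matrix.sum_apply, Matrix.one_apply_ne huv] at h
      have h1 := Finset.add_sum_erase univ (fun r => E r u v) (Finset.mem_univ r1)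
      beta_reduce at h1
      rw [h, Finset.sum_congr rfl fun r hr => hconst r (hne r hr) u v a a, ← he] at h1
      linarith
    have hen : e = 1 / n := by
      have h1 := hcol r1 a a
      rw [hr1] at h1
      have h2 : ∑ w, E r1 w a = ∑ w, (-e + if w = a then 1 else 0) := by
        refine Finset.sum_congr rfl fun w _ => ?_
        split_ifs with h
        · rw [h, hdiag a]; ring
        · rw [hoff w a h]; ring
      rw [h2, Finset.sum_add_distrib, Finset.sum_const, Finset.card_univ, nsmul_eq_mul,
        Finset.sum_ite_eq'] at h1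
      simp only [Finset.mem_univ, if_true] at h1
      rw [← hn] at h1
      rw [eq_div_iff hnpos.ne']
      linarith
    have hsq : ∀ r ∈ univ.erase r1, n * E r a a ^ 2 = E r a a := by
      intro r hr
      have h1 := hid r a a
      rw [Finset.sum_congr rfl fun c _ => by
        rw [hconst r (hne r hr) a c a a, hconst r (hne r hr) c a a a], Finset.sum_const,
        Finset.card_univ, nsmul_eq_mul, ← hn] at h1
      rw [pow_two]; exact h1
    have hv : ∀ v, ∑ r, E r v v ^ 2 = (1 - 1 / n) ^ 2 + 1 / n ^ 2 := by
      intro v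
      rw [← Finset.add_sum_erase univ (fun r => E r v v ^ 2) (Finset.mem_univ r1), hdiag v, hen]
      congr 1
      rw [Finset.sum_congr rfl fun r hr => by rw [hconst r (hne r hr) v v a a]]
      have h1 : n * ∑ r ∈ univ.erase r1, E r a a ^ 2 = 1 / n := by
        rw [Finset.mul_sum, Finset.sum_congr rfl hsq, ← he, hen]
      field_simp at h1 ⊢
      linarith
    rw [Finset.sum_congr rfl fun v _ => hv v, Finset.sum_const, Finset.card_univ, nsmul_eq_mul, ← hn]
    field_simp
    ring

/-- (1) The adjacency matrix of every graph has a spectral decomposition. (2) For every connected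
graph `X` on `n` vertices the trace of the average mixing matrix is at most `(n² - 2n + 2)/n`.
(3) For the complete graph on `n ≥ 1` vertices the trace is exactly this number. -/
theorem result :
    (∀ (V : Type) [Fintype V] [DecidableEq V] (X : SimpleGraph V) [DecidableRel X.Adj],
      ∃ (k : ℕ) (θ : Fin k → ℝ) (E : Fin k → Matrix V V ℝ),
        IsSpectralDecomposition (X.adjMatrix ℝ) θ E) ∧
    (∀ (V : Type) [Fintype V] [DecidableEq V] (X : SimpleGraph V) [DecidableRel X.Adj],
      X.Connected → ∀ (k : ℕ) (θ : Fin k → ℝ) (E : Fin k → Matrix V V ℝ),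
        IsSpectralDecomposition (X.adjMatrix ℝ) θ E →
        (avgMixing E).trace ≤
          ((Fintype.card V : ℝ) ^ 2 - 2 * Fintype.card V + 2) / Fintype.card V) ∧
    (∀ (V : Type) [Fintype V] [DecidableEq V] [Nonempty V] (k : ℕ) (θ : Fin k → ℝ)
      (E : Fin k → Matrix V V ℝ),
        IsSpectralDecomposition ((⊤ : SimpleGraph V).adjMatrix ℝ) θ E →
        (avgMixing E).trace =
          ((Fintype.card V : ℝ) ^ 2 - 2 * Fintype.card V + 2) / Fintype.card V) := by
  refine ⟨fun V _ _ X _ => ?_, fun V _ _ X _ hX k θ E S => ?_, fun V _ _ _ k θ E S => ?_⟩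
  · exact exists_decomposition _ (Pool.Agent.R2.Perron.herm X)
  · rw [trace_eq]
    exact trace_le X hX (toSpec S)
  · rw [trace_eq]
    exact trace_complete (toSpec S)

end Pool.Agent.Results.MP_582e4a_co.TraceMaximum
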